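import Pool.Agent.P.MP_c821f2_co.U.Data

namespace Pool.Agent.P.MP_c821f2_co.U

def is9 : List ℕ := [0, 1, 2, 3, 4, 5, 6, 7, 8]
def ι9 : Fin 9 → ℕ := Fin.val
def ιp : Option (Fin 9) → ℕ := fun x => x.elim 9 Fin.val
def ιq : Option (Option (Fin 9)) → ℕ := fun x => x.elim 10 ιp

theorem hι9 : ∀ i, i ∈ is9 ↔ ∃ x, ι9 x = i := by
  intro i
  constructor
  · revert i; decide
  · rintro ⟨x, rfl⟩; revert x; decide

theorem hιq : ∀ i, i < 11 ↔ ∃ x, ιq x = i := by
  intro i
  constructor
  · revert i; decide
  · rintro ⟨x, rfl⟩; revert x; decide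

theorem dualO : DualPair (fam ι9 Cl) (fam ι9 Dl) :=
  dualPair_of_check (m := 9) (by norm_num) (by decide) (by decide) (mk := mk11.take 9)
    (fun t ht => mk11_spec t (List.mem_of_mem_take ht)) (by decide +kernel)
    (fun c hc d hd => (orth1_iff hι9 Cl d).1 (List.all_eq_true.1
      (show Dl.all (orth1 (cols is9 Cl)) = true by decide +kernel) d hd) _
      ⟨c, hc, Or.inl rfl⟩) (by decide +kernel)

/-- The example. -/
def exO : OM (Fin 9) := dualO.om

def checkExt' (g f d : ℕ) (Cn D' : List ℕ) : Bool :=
  orthFast (Cn ++ Cl) (d :: D') &&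
  paintCheck (mk11.take 10) (2 ^ (2 ^ 10) - 1) (famC (Cn ++ Cl)) (famD (2 ^ 10 - 1) D') &&
  Cn.all (fun r => (sp r).testBit 9 && !(sp r).testBit 10) &&
  Cn.any (fun r => Nat.beq (sp r) (2 ^ g ||| 2 ^ f ||| 2 ^ 9)) &&
  D'.any (fun r => (sp r).testBit 9 && !(sp r).testBit g) &&
  D'.any (fun r => (sp r).testBit 9 && !(sp r).testBit f)

def checkExt (g f d : ℕ) (x : ℕ × ℕ × ℕ × ℕ) : Bool :=
  checkExt' g f d (unpack x.1 x.2.1) (unpack x.2.2.1 x.2.2.2)

def Good (g f : Fin 9) (d : ℕ) : Prop :=
  ∃ O' : OM (Option (Fin 9)), exO.IsExtension O' ∧ none ∈ O'.closure {some g, some f} ∧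
    none ∉ O'.closure {some g} ∧ none ∉ O'.closure {some f} ∧ sv ιp d ∈ O'.L

theorem sv_lift {r : ℕ} (h : (sp r).testBit 9 = false) :
    (fun x : Option (Fin 9) => x.elim 0 (sv ι9 r)) = sv ιp r := by
  funext x
  cases x with
  | none =>
    by_contra hne
    have := (sp_testBit ιp r none (by decide)).2 (fun h0 => hne h0.symm)
    rw [show ιp none = 9 from rfl, h] at this
    exact absurd this (by simp)
  | some e => rfl

theorem sv_lift' {r : ℕ} (h : (sp r).testBit 10 = false) :
    (fun x : Option (Option (Fin 9)) => x.elim 0 (sv ιp r)) = sv ιq r := by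
  funext x
  cases x with
  | none =>
    by_contra hne
    have := (sp_testBit ιq r none (by decide)).2 (fun h0 => hne h0.symm)
    rw [show ιq none = 10 from rfl, h] at this
    exact absurd this (by simp)
  | some e => rfl

theorem elim_neg (X : Fin 9 → SignType) :
    (fun x : Option (Fin 9) => x.elim 0 (-X)) = -(fun x : Option (Fin 9) => x.elim 0 X) := by
  funext x; cases x <;> simp

theorem Cl_nine : ∀ r ∈ Cl, (sp r).testBit 9 = false := by decide +kernel
theorem Cl_ten : ∀ r ∈ Cl, (sp r).testBit 10 = false := by decide +kernel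
theorem Dl_nine : ∀ r ∈ Dl, (sp r).testBit 9 = false := by decide +kernel

theorem checkExt'_sound (g f : Fin 9) (d : ℕ) (Cn D' : List ℕ)
    (h : checkExt' g f d Cn D' = true) : Good g f d := by
  simp only [checkExt', Bool.and_eq_true] at h
  obtain ⟨⟨⟨⟨⟨h1, h3⟩, h4'⟩, h5⟩, h6⟩, h7⟩ := h
  have h4 : ∀ r ∈ Cn, (sp r).testBit 9 = true ∧ (sp r).testBit 10 = false := by
    intro r hr
    have := List.all_eq_true.1 h4' r hr
    simpa using this
  have h2 : ∀ c ∈ Cn ++ Cl, ∀ e ∈ d :: D', Orth (sv ιp c) (sv ιp e) := by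
    intro c hc e he
    have h10 : (sp c).testBit 10 = false := by
      rcases List.mem_append.1 hc with hc | hc
      · exact (h4 c hc).2
      · exact Cl_ten c hc
    have := orthFast_sound hιq h1 c hc e he
    rw [← sv_lift' h10] at this
    exact (orth_lift (X := sv ιp e) (X' := sv ιq e) rfl).1 this
  have h10 : ∀ x, ιp x < 10 := by decide
  have h11 : ∀ x, ιp x < 11 := by decide
  have hd : DualPair (fam ιp (Cn ++ Cl)) (fam ιp D') :=
    dualPair_of_check (m := 10) (by norm_num) h10 (by decide) (mk := mk11.take 10)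
      (fun t ht => mk11_spec t (List.mem_of_mem_take ht)) (by decide +kernel)
      (fun c hc d hd => h2 c hc d (by simp [hd])) h3
  have hnot : ∀ g : Fin 9, D'.any (fun r => (sp r).testBit 9 && !(sp r).testBit g) = true →
      none ∉ hd.om.closure {some g} := by
    intro g hg
    obtain ⟨r, hr, h8⟩ := List.any_eq_true.1 hg
    simp only [Bool.and_eq_true, Bool.not_eq_true'] at h8
    refine not_mem_closure_of (D := sv ιp r) (hd.mem_perp ⟨r, hr, Or.inl rfl⟩)
      ((sp_testBit ιp r none (by decide)).1 h8.1) ?_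
    rintro _ rfl
    by_contra hne
    have := (sp_testBit ιp r (some g) (h11 _)).2 hne
    rw [show ιp (some g) = g from rfl, h8.2] at this
    exact absurd this (by simp)
  refine ⟨hd.om, dualO.isExtension hd ?_ ?_, ?_, hnot g h6, hnot f h7, ?_⟩
  rotate_left 3
  · rintro _ ⟨c, hc, rfl | rfl⟩
    · exact h2 c hc d (by simp)
    · exact orth_neg_left (h2 c hc d (by simp))
  · rintro _ ⟨r, hr, rfl | rfl⟩
    · exact ⟨r, by simp [hr], Or.inl (sv_lift (Cl_nine r hr))⟩
    · exact ⟨r, by simp [hr], Or.inr (by rw [elim_neg, sv_lift (Cl_nine r hr)])⟩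
  · rintro _ ⟨r, hr, hC⟩ h0
    rcases List.mem_append.1 hr with hr | hr
    · exfalso
      have := (sp_testBit ιp r none (by decide)).1 (h4 r hr).1
      rcases hC with rfl | rfl
      · exact this h0
      · exact this (by simpa using h0)
    · rcases hC with rfl | rfl
      · exact ⟨r, hr, Or.inl rfl⟩
      · exact ⟨r, hr, Or.inr rfl⟩
  · obtain ⟨r, hr, h8⟩ := List.any_eq_true.1 h5
    rw [Nat.beq_eq] at h8
    refine mem_closure_of (O := hd.om) (C := sv ιp r)
      (fun X hX => hX _ ⟨r, by simp [hr], Or.inl rfl⟩) ?_ ?_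
    · exact (sp_testBit ιp r none (by decide)).1 (h4 r hr).1
    · intro x hx hxA
      by_contra hne
      have := (sp_testBit ιp r x (h11 x)).2 hne
      rw [h8] at this
      simp only [Nat.testBit_or, Nat.testBit_two_pow, Bool.or_eq_true, decide_eq_true_eq] at this
      cases x with
      | none => exact hx rfl
      | some y =>
        have hy : ιp (some y) = y := rfl
        rw [hy] at this
        have := y.2
        apply hxA
        simp only [Set.mem_insert_iff, Set.mem_singleton_iff, Option.some.injEq, Fin.ext_iff]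
        omega

def checkList (g f : ℕ) : List ℕ → List (ℕ × ℕ × ℕ × ℕ) → Bool
  | [], _ => true
  | d :: ds, xs => cond ((sp d).testBit g && (sp d).testBit f)
      (match xs with
        | [] => false
        | x :: xs' => checkExt g f d x && checkList g f ds xs')
      (checkList g f ds xs)

def GoodOn (g f : Fin 9) (ds : List ℕ) : Prop :=
  ∀ d ∈ ds, (sp d).testBit g = true → (sp d).testBit f = true → Good g f d

theorem checkList_sound (g f : Fin 9) (ds : List ℕ) : ∀ xs, checkList g f ds xs = true →
    GoodOn g f ds := by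
  induction ds with
  | nil => intro _ _ d hd; simp at hd
  | cons d ds ih =>
    intro xs h d' hd' h1 h2
    unfold checkList at h
    cases hc : ((sp d).testBit g && (sp d).testBit f)
    · rw [hc] at h
      rcases List.mem_cons.1 hd' with rfl | hd'
      · rw [h1, h2] at hc; exact absurd hc (by simp)
      · exact ih xs h d' hd' h1 h2
    · rw [hc] at h
      cases xs with
      | nil => exact absurd h (by simp)
      | cons x xs =>
        simp only [cond_true, Bool.and_eq_true] at h
        rcases List.mem_cons.1 hd' with rfl | hd'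
        · exact checkExt'_sound g f _ _ _ h.1
        · exact ih xs h.2 d' hd' h1 h2

end Pool.Agent.P.MP_c821f2_co.U
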