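import Pool.Agent.P.MP_c821f2_co.Check

namespace Pool.Agent.P.MP_c821f2_co.U

def Cl : List ℕ := [
  129024, 192513, 262175, 587776, 84038, 26786, 96512, 26818, 143625, 786447, 176161, 364549,
  561189, 430085, 526422, 10642, 333892, 524391, 524455, 786503, 116802, 2234, 67866, 2266,
  135449, 839681, 397353, 659497, 332041, 397577, 67794, 67922, 526514, 526546, 655523, 131133,
  327709, 557101, 393245, 583744, 27024, 139433, 92480, 27040, 27072, 329812, 557157, 557221,
  819269, 852037, 131257, 198936, 330008, 133528, 655529, 330064, 126, 190, 65822, 262238,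
  716800, 847872, 155810, 209160, 340232, 143752, 364612, 524406, 524470, 786518, 139682, 131258,
  200984, 332056, 135576, 671906, 364864, 327772, 581728, 581792, 843840, 868420, 172448, 901184]

def Dl : List ℕ := [
  721040, 278880, 33224, 622728, 737296, 98504, 721028, 794704, 860176, 33124, 270448, 147844,
  16804, 729096, 213124, 33164, 147732, 409620, 16692, 286768, 41064, 266592, 426242, 295202,
  528496, 229506, 4552, 594056, 737282, 69832, 544912, 675856, 4312, 544816, 98442, 245762,
  925698, 270626, 4452, 401442, 37252, 164102, 434178, 33062, 270386, 4212, 794634, 536648,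
  12488, 602120, 86148, 212998, 552976, 20628, 151572, 20532, 590017, 919568, 297248, 33121,
  395312, 16833, 589961, 722952, 82113, 278801, 16721, 409617, 82193, 297000, 34920, 919556,
  272672, 8545, 395300, 33157, 166148, 428036, 35108, 272432, 8305, 796680, 532553, 8393, 598025,
  82053, 215044, 16661, 286737, 24657, 90129, 4545, 589955, 722946, 69825, 530576, 661520, 4305,
  530480, 98435, 231426, 278787, 16707, 409603, 82179, 268328, 6248, 20753, 296970, 34890,
  100362, 530564, 661508, 6340, 530468, 73859, 204803, 33031, 270355, 8275, 73747, 538632, 22660,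
  153604, 22564, 34830]

def tpMask : ℕ := 0x3bfafffa3bbaffba00f2f0f008fafcfc3fffffff08aacc885dffdddd08fadcdc3b3b5f10bbbbffba11335510fffffffc3f3f5f100f0f4f005dff5ddc5fff5fdc

def mutL : List ℕ := [9, 39, 125, 429]

end Pool.Agent.P.MP_c821f2_co.U
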