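import Pool.Agent.P.MP_c821f2_co.U.Ext0
import Pool.Agent.P.MP_c821f2_co.U.Ext1
import Pool.Agent.P.MP_c821f2_co.U.Ext2
import Pool.Agent.P.MP_c821f2_co.U.Ext3
import Pool.Agent.P.MP_c821f2_co.U.Ext4
import Pool.Agent.P.MP_c821f2_co.U.Ext5
import Pool.Agent.P.MP_c821f2_co.U.Ext6
import Pool.Agent.P.MP_c821f2_co.U.Ext7

namespace Pool.Agent.P.MP_c821f2_co.U

theorem good_all (g f : Fin 9) (h : g < f) : GoodOn g f Dl := by
  fin_cases g <;> fin_cases f <;> simp only [Fin.lt_def] at h <;> try omega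
  · exact good_0_1
  · exact good_0_2
  · exact good_0_3
  · exact good_0_4
  · exact good_0_5
  · exact good_0_6
  · exact good_0_7
  · exact good_0_8
  · exact good_1_2
  · exact good_1_3
  · exact good_1_4
  · exact good_1_5
  · exact good_1_6
  · exact good_1_7
  · exact good_1_8
  · exact good_2_3
  · exact good_2_4
  · exact good_2_5
  · exact good_2_6
  · exact good_2_7
  · exact good_2_8
  · exact good_3_4
  · exact good_3_5
  · exact good_3_6
  · exact good_3_7
  · exact good_3_8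
  · exact good_4_5
  · exact good_4_6
  · exact good_4_7
  · exact good_4_8
  · exact good_5_6
  · exact good_5_7
  · exact good_5_8
  · exact good_6_7
  · exact good_6_8
  · exact good_7_8

theorem h9 : ∀ x, ι9 x < 11 := by decide

theorem svD_mem {d : ℕ} (hd : d ∈ Dl) : sv ι9 d ∈ exO.L :=
  dualO.mem_perp ⟨d, hd, Or.inl rfl⟩

theorem svC_orth {c : ℕ} (hc : c ∈ Cl) : ∀ X ∈ exO.L, Orth (sv ι9 c) X :=
  fun _ hX => hX _ ⟨c, hc, Or.inl rfl⟩

theorem sv_zero {r : ℕ} {x : Fin 9} (h : (sp r).testBit x = false) : sv ι9 r x = 0 := by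
  by_contra hne
  have := (sp_testBit ι9 r x (h9 x)).2 hne
  rw [show ι9 x = x from rfl, h] at this
  exact absurd this (by simp)

theorem sv_ne {r : ℕ} {x : Fin 9} (h : (sp r).testBit x = true) : sv ι9 r x ≠ 0 :=
  (sp_testBit ι9 r x (h9 x)).1 h

theorem simple_aux : ∀ e f : Fin 9, e ≠ f →
    ∃ d ∈ Dl, (sp d).testBit e = true ∧ (sp d).testBit f = false := by decide +kernel

theorem exO_simple : exO.Simple := by
  have h : ∀ e f : Fin 9, e ≠ f → e ∉ exO.closure {f} := by
    intro e f hef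
    obtain ⟨d, hd, h1, h2⟩ := simple_aux e f hef
    exact not_mem_closure_of (svD_mem hd) (sv_ne h1) (by rintro _ rfl; exact sv_zero h2)
  refine ⟨fun e he => ?_, h⟩
  obtain ⟨f, hf⟩ := exists_ne e
  exact h e f hf.symm (fun X hX _ => he X hX (by simp))

theorem exO_euclidean : exO.Euclidean := by
  intro g f hgf Y hY hg
  by_cases hf : Y f = 0
  · exact parallel_case (exO_simple.2 f g hgf.symm) hY hf
  obtain ⟨d, hd, hYd⟩ := dualO.cocircuit_mem hY
  have hg' : Y g ≠ 0 := by rw [hg]; decide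
  have hb : ∀ x, Y x ≠ 0 → (sp d).testBit x = true := by
    intro x hx
    apply (sp_testBit ι9 d x (h9 x)).2
    rcases hYd with rfl | rfl
    · exact hx
    · simpa using hx
  have hL : ∀ O' : OM (Option (Fin 9)), sv ιp d ∈ O'.L →
      (fun x : Option (Fin 9) => x.elim 0 Y) ∈ O'.L := by
    intro O' h
    rcases hYd with rfl | rfl
    · rw [sv_lift (Dl_nine d hd)]; exact h
    · rw [elim_neg, sv_lift (Dl_nine d hd)]; exact O'.neg_mem _ h
  rcases lt_or_gt_of_ne hgf with h | h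
  · obtain ⟨O', a1, a2, a3, -, a5⟩ := good_all g f h d hd (hb g hg') (hb f hf)
    exact ⟨O', a1, a2, a3, cocircuit_lift a1 hY (hL O' a5)⟩
  · obtain ⟨O', a1, a2, -, a3, a5⟩ := good_all f g h d hd (hb f hf) (hb g hg')
    exact ⟨O', a1, by rw [Set.pair_comm]; exact a2, a3, cocircuit_lift a1 hY (hL O' a5)⟩

theorem dep_of {c : ℕ} (hc : c ∈ Cl) {K : Set (Fin 9)} {e : Fin 9}
    (he : (sp c).testBit e = true) (hK : ∀ x : Fin 9, (sp c).testBit x = true → x ∈ K) :
    ¬ exO.Indep K := by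
  intro h
  refine h e (hK e he) (mem_closure_of (svC_orth hc) (sv_ne he) fun x hx hxA => ?_)
  by_contra hne
  exact hxA ⟨hK x ((sp_testBit ι9 c x (h9 x)).2 hne), hx⟩

theorem indep_mono {I J : Set (Fin 9)} (hI : exO.Indep I) (hJ : J ⊆ I) : exO.Indep J := by
  intro e he hc
  exact hI e (hJ he) fun X hX h0 => hc X hX fun a ha => h0 a ⟨hJ ha.1, ha.2⟩

theorem unif_aux : ∀ I : Finset (Fin 9), I.card = 5 → ∀ e ∈ I, ∃ d ∈ Dl,
    (sp d).testBit e = true ∧ ∀ x ∈ I, x ≠ e → (sp d).testBit x = false := by decide +kernel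

theorem dep_aux : ∀ I : Finset (Fin 9), I.card = 6 → ∃ c ∈ Cl,
    (∃ e : Fin 9, (sp c).testBit e = true) ∧ ∀ x : Fin 9, (sp c).testBit x = true → x ∈ I := by
  decide +kernel

theorem exO_uniform (I : Finset (Fin 9)) (hI : I.card = 5) : exO.Indep I := by
  intro e he
  obtain ⟨d, hd, h1, h2⟩ := unif_aux I hI e he
  refine not_mem_closure_of (svD_mem hd) (sv_ne h1) ?_
  rintro x ⟨hx, hxe⟩
  exact sv_zero (h2 x hx hxe)

theorem exO_dep (I : Finset (Fin 9)) (hI : I.card = 6) : ¬ exO.Indep I := by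
  obtain ⟨c, hc, ⟨e, he⟩, h⟩ := dep_aux I hI
  exact dep_of hc he h

theorem exO_rank : exO.HasRank 5 := by
  constructor
  · exact ⟨{0, 1, 2, 3, 4}, exO_uniform _ (by decide), by decide⟩
  · rintro k ⟨I, hI, rfl⟩
    by_contra hc
    obtain ⟨J, hJ, hJc⟩ := Finset.exists_subset_card_eq (s := I) (n := 6) (by omega)
    exact exO_dep J hJc (indep_mono hI (by exact_mod_cast hJ))

theorem exO_connected : exO.Connected := by
  intro e f _
  obtain ⟨K, hK, -, hKc⟩ := Finset.exists_subsuperset_card_eq (n := 6)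
    (Finset.subset_univ ({e, f} : Finset (Fin 9)))
    (le_trans Finset.card_le_two (by norm_num)) (by simp)
  refine ⟨K, ⟨exO_dep K hKc, fun J hJ => ?_⟩, hK (by simp), hK (by simp)⟩
  obtain ⟨x, hx, hxJ⟩ := Set.exists_of_ssubset hJ
  refine indep_mono (exO_uniform (K.erase x) (by rw [Finset.card_erase_of_mem hx, hKc])) ?_
  intro y hy
  simp only [Finset.coe_erase, Set.mem_sdiff, Set.mem_singleton_iff]
  exact ⟨hJ.1 hy, by rintro rfl; exact hxJ hy⟩

/-- The sign vector without zeros whose positive part has the mask `P`. -/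
def tv (P : ℕ) : Fin 9 → SignType := fun x => if P.testBit x then 1 else -1

def tp (P : ℕ) : Bool := orth1 (cols is9 Cl) (P + 2048 * 511)

theorem tv_eq {P : ℕ} (hP : P < 512) : sv ι9 (P + 2048 * 511) = tv P := by
  funext x
  unfold sv tv
  have h1 : P < 2 ^ 11 := by omega
  have hx : x.1 < 9 := x.2
  rw [show P + 2048 * 511 = 2 ^ 11 * (2 ^ 9 - 1) + P by omega,
    Nat.testBit_two_pow_mul_add _ h1, Nat.testBit_two_pow_mul_add _ h1,
    show ι9 x = x.1 from rfl, if_pos (show x.1 < 11 by omega),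
    if_neg (show ¬ x.1 + 11 < 11 by omega), Nat.add_sub_cancel, Nat.testBit_two_pow_sub_one]
  simp [hx]

theorem tv_ne (P : ℕ) (x : Fin 9) : tv P x ≠ 0 := by
  unfold tv; split_ifs <;> decide

theorem tp_iff {P : ℕ} (hP : P < 512) : tp P = true ↔ tv P ∈ exO.L := by
  unfold tp
  rw [orth1_iff hι9, tv_eq hP]; rfl

theorem tope_iff (T : Fin 9 → SignType) : exO.IsTope T ↔ T ∈ exO.L ∧ ∀ e, T e ≠ 0 :=
  isTope_iff ((tp_iff (P := 9) (by norm_num)).1 (by decide +kernel)) (tv_ne 9) T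

theorem tope_tv {P : ℕ} (hP : P < 512) : exO.IsTope (tv P) ↔ tp P = true := by
  rw [tope_iff, tp_iff hP]
  exact ⟨fun h => h.1, fun h => ⟨h, tv_ne P⟩⟩

theorem exists_tv {T : Fin 9 → SignType} (h : ∀ e, T e ≠ 0) : ∃ P < 512, T = tv P := by
  obtain ⟨P, hP, h1⟩ := exists_mask 9 (fun j => ∃ x : Fin 9, x.1 = j ∧ T x = 1)
  refine ⟨P, hP, funext fun x => ?_⟩
  unfold tv
  have h2 := h1 x x.2
  have h3 := h x
  split_ifs with h4
  · obtain ⟨y, hy, h5⟩ := h2.1 h4
    rwa [Fin.ext hy] at h5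
  · have : T x ≠ 1 := fun h5 => h4 (h2.2 ⟨x, rfl, h5⟩)
    revert this h3; generalize T x = a; revert a; decide

theorem update_tv (P : ℕ) (e : Fin 9) :
    Function.update (tv P) e (-tv P e) = tv (P ^^^ 2 ^ e.1) := by
  funext x
  by_cases hx : x = e
  · subst hx
    simp only [Function.update_self, tv, Nat.testBit_xor, Nat.testBit_two_pow, decide_true]
    cases P.testBit x <;> simp
  · rw [Function.update_of_ne hx]
    have : ¬ e.1 = x.1 := fun h => hx (Fin.ext h.symm)
    simp [tv, Nat.testBit_xor, this]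

theorem xor_lt {P : ℕ} (hP : P < 512) (e : Fin 9) : P ^^^ 2 ^ e.1 < 512 :=
  Nat.xor_lt_two_pow (n := 9) hP (Nat.pow_lt_pow_right (by norm_num) e.2)

theorem tpMask_spec : ∀ P < 512, tp P = tpMask.testBit P := by decide +kernel

theorem walls_tv {P : ℕ} (hP : P < 512) : exO.walls (tv P) =
    ↑(Finset.univ.filter fun e : Fin 9 => tpMask.testBit (P ^^^ 2 ^ e.1) = true) := by
  ext e
  simp only [OM.walls, Set.mem_ofPred_eq, update_tv, tope_tv (xor_lt hP e),
    tpMask_spec _ (xor_lt hP e), Finset.coe_filter, Finset.mem_univ, true_and, ne_eq, tv_ne,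
    not_false_eq_true]

theorem simplicial_tv {P : ℕ} (hP : P < 512) :
    (exO.IsSimplicial 5 (tv P) ∧ (0 : Fin 9) ∈ exO.walls (tv P)) ↔
      (tpMask.testBit P = true ∧
        (Finset.univ.filter fun e : Fin 9 => tpMask.testBit (P ^^^ 2 ^ e.1) = true).card = 5) ∧
        tpMask.testBit (P ^^^ 1) = true := by
  unfold OM.IsSimplicial
  rw [walls_tv hP, Set.ncard_coe_finset, tope_tv hP, tpMask_spec P hP]
  simp

theorem mut_aux : ∀ P < 512, ((tpMask.testBit P = true ∧
    (Finset.univ.filter fun e : Fin 9 => tpMask.testBit (P ^^^ 2 ^ e.1) = true).card = 5) ∧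
      tpMask.testBit (P ^^^ 1) = true) ↔ (P ∈ mutL ∨ 511 - P ∈ mutL) := by decide +kernel

theorem neg_tv : ∀ P < 512, -tv P = tv (511 - P) := by decide +kernel

theorem mut_eq : exO.mutationsAdj 5 0 =
    (fun P => ({tv P, -tv P} : Set (Fin 9 → SignType))) '' ↑mutL.toFinset := by
  ext m
  constructor
  · rintro ⟨T, h1, h2, rfl⟩
    obtain ⟨P, hP, rfl⟩ := exists_tv ((tope_iff T).1 h1.1).2
    rcases (mut_aux P hP).1 ((simplicial_tv hP).1 ⟨h1, h2⟩) with h | h
    · exact ⟨P, by simpa using h, rfl⟩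
    · refine ⟨511 - P, by simpa using h, ?_⟩
      simp only
      rw [← neg_tv P hP, neg_neg, Set.pair_comm]
  · rintro ⟨P, hP, rfl⟩
    have h : P ∈ mutL := by simpa using hP
    have hlt : P < 512 := by revert P; decide
    have := (simplicial_tv hlt).2 ((mut_aux P hlt).2 (Or.inl h))
    exact ⟨tv P, this.1, this.2, rfl⟩

theorem exO_mutations : (exO.mutationsAdj 5 0).ncard = 4 := by
  rw [mut_eq, Set.InjOn.ncard_image, Set.ncard_coe_finset]
  · decide
  · intro P hP Q hQ h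
    have hP' : P ∈ mutL := by simpa using hP
    have hQ' : Q ∈ mutL := by simpa using hQ
    have : tv P ∈ ({tv Q, -tv Q} : Set (Fin 9 → SignType)) := by
      simp only at h; rw [← h]; simp
    have key : ∀ P ∈ mutL, ∀ Q ∈ mutL, (tv P = tv Q ∨ tv P = -tv Q) → P = Q := by decide +kernel
    exact key P hP' Q hQ' (by simpa using this)

end Pool.Agent.P.MP_c821f2_co.U
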